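import Pool.Agent.Q229.RAE
import Pool.Agent.TH659.AQ.Log

/-!
# Lower bounds for linear forms in logarithms at ALL rational points near almost every real point

For every `j ≤ n` let `s_(j,1), …, s_(j,m)` be distinct rational numbers (for instance `m = 1`, `s_(j,1) = 0`). We consider linear
forms `∑ b_ji log (q_j + s_ji)` in logarithms of rational numbers.

The starting file `AlmostAllRationalTuples` bounds the number of the `n`-tuples `q` of height `T` for which some form with
coefficients at most `T ^ κ` is smaller than `T ^ (-E)` by `T^(2(n-1)+β)`, `β > 2 - 2 / (n m + 1)`; with the counting theorem of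
`Pool.Agent.Y120.RealPolys` (`β` arbitrarily small) and coverings we obtain all rational points near all real points outside a
set of small Hausdorff dimension. For `n = 1` this set has dimension zero, for every `τ > 0`; for `τ = 2` the theorem applies to
the convergents `q` of `x`.
-/

set_option autoImplicit false

open MeasureTheory Filter

namespace Pool.Agent.Results.MP_90c6bd_nt.RationalsNearRealPoints

/-- The linear form `∑ b_ji log (q_j + s_ji)`. -/
noncomputable def form {n m : ℕ} (s : Fin n → Fin m → ℚ) (b : Fin n → Fin m → ℤ) (q : Fin n → ℚ) : ℝ :=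
  ∑ j, ∑ i, (b j i : ℝ) * Real.log ((q j : ℝ) + (s j i : ℝ))

/-- **Theorem.** Let `n ≥ 1` and for every `j ≤ n` let `s_(j,1), …, s_(j,m)` be distinct rational numbers. For every `τ > 0` there is
a set `Z ⊂ ℝ^n` of Hausdorff dimension at most `2 (n - 1) / τ` (dimension `0` for `n = 1`), and of Lebesgue measure zero if
`2 (n - 1) < n τ`, such that for all `x ∉ Z` with all `x_j + s_ji > 0`, all `κ`, some `E` and all sufficiently large `T` the
following holds for ALL rational points `q` with denominators at most `T` and `|x_j - q_j| ≤ T ^ (-τ)`: for all integers `b_ji`,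
not all zero and of absolute value at most `T ^ κ`, `|∑ b_ji log (q_j + s_ji)| > T ^ (-E)`. -/
theorem result (n m : ℕ) (hn : 1 ≤ n) (s : Fin n → Fin m → ℚ) (hs : ∀ j, Function.Injective (s j)) (τ : ℝ) (hτ : 0 < τ) :
    ∃ Z : Set (Fin n → ℝ), dimH Z ≤ ENNReal.ofReal (2 * ((n : ℝ) - 1) / τ) ∧
      (2 * ((n : ℝ) - 1) < n * τ → volume Z = 0) ∧
      ∀ x : Fin n → ℝ, (∀ j i, 0 < x j + s j i) → x ∉ Z → ∀ κ : ℝ, ∃ E : ℝ, ∀ᶠ T : ℝ in atTop,
        ∀ q : Fin n → ℚ, (∀ j, ((q j).den : ℝ) ≤ T ∧ |x j - q j| ≤ T ^ (-τ)) →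
        ∀ b : Fin n → Fin m → ℤ, b ≠ 0 → (∀ j i, |(b j i : ℝ)| ≤ T ^ κ) → T ^ (-E) < |form s b q| := by
  have hopen : ∀ j, IsOpen {t : ℝ | ∀ i, 0 < t + (s j i : ℝ)} := by
    intro j
    have h1 : {t : ℝ | ∀ i, 0 < t + (s j i : ℝ)} = ⋂ i, {t : ℝ | 0 < t + (s j i : ℝ)} := by
      ext t
      simp
    rw [h1]
    exact isOpen_iInter_of_finite fun i => isOpen_lt continuous_const (continuous_id.add continuous_const)
  have hinj : ∀ j, Function.Injective fun i => (s j i : ℝ) := fun j i i' h => hs j (Rat.cast_injective h)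
  obtain ⟨Z, h1, h2, h3⟩ := Pool.Agent.Q229.RA.masterOR hn
    (fun j (i : Fin m) t => Real.log (t + (s j i : ℝ))) (fun j => {t : ℝ | ∀ i, 0 < t + (s j i : ℝ)}) hopen
    (fun j i t ht => TH659.AQ.lf_an (fun i => (s j i : ℝ)) i (ht i))
    (fun j a b hab hsub d => TH659.AQ.log_ind d m (fun i => (s j i : ℝ)) (hinj j) a b (hsub ⟨le_rfl, hab.le⟩) hab)
    (fun q z => z.elim Real.pi fun y => Real.log ((q y.1 : ℝ) + (s y.1 y.2 : ℝ))) (fun _ => rfl)
    (fun _ _ _ _ => rfl) τ hτ
  refine ⟨Z, h1, h2, fun x hxD hx κ => ?_⟩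
  obtain ⟨E, hE⟩ := h3 x hxD hx 1 κ
  refine ⟨E, ?_⟩
  filter_upwards [hE, eventually_ge_atTop 0] with T hT hT0 q hq b hb hbT
  obtain ⟨P, hP, hdeg, hcoef, hval⟩ := Pool.Agent.Q229.RA.lin
    (fun z : Option (Fin n × Fin m) => z.elim 0 fun y => b y.1 y.2)
    (by
      intro h0
      apply hb
      funext j i
      exact congrFun h0 (some (j, i)))
    (Real.rpow_nonneg hT0 κ)
    (by
      rintro (_ | ⟨j, i⟩)
      · simpa using Real.rpow_nonneg hT0 κ
      · exact hbT j i)
    (fun z => z.elim Real.pi fun y => Real.log ((q y.1 : ℝ) + (s y.1 y.2 : ℝ)))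
  have h4 := hT q hq P hP hdeg hcoef
  rw [hval, Fintype.sum_option] at h4
  simp only [Option.elim, Int.cast_zero, zero_mul, zero_add, Fintype.sum_prod_type] at h4
  exact h4

end Pool.Agent.Results.MP_90c6bd_nt.RationalsNearRealPoints
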