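import Pool.Agent.Q10.TC.Lang

/-!
# Lang's inequality for tuples of rationals near almost every real point

`H a` is the product of the heights of `a_1, ..., a_n`, `Near K t α a` says that
`|α_j - a_j| ≤ K q_j ^ (-t)` for all `j`, where `q_j` is the denominator of `a_j` (for `t = 2`, `K = 1`
this holds for all convergents `a_j` of `α_j`), and `Fails m κ lam a` says that some linear form
`Λ = b_1 log a_1 + ... + b_n log a_n + c_1 log d_1 + ... + c_m log d_m` with integers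
`b_j ≠ 0`, `c_i` of absolute value at most `H(a) ^ κ` and positive rationals `d_i` of height at most
`H(a) ^ lam` satisfies `|Λ| ≤ H(a) ^ (-2)`.
-/

set_option autoImplicit false

namespace Pool.Agent.Results.MP_90c6bd_nt.TuplesOfConvergents

open MeasureTheory
open Pool.Agent.Q10.TC

theorem result (n m : ℕ) (hn : 1 ≤ n) (κ lam t : ℝ) (hκ : 0 ≤ κ) (hlam : 0 ≤ lam) (ht : 0 < t) :
    dimH {α : Fin n → ℝ | ¬ ∀ K : ℝ,
        {a : Fin n → ℚ | (∀ j, 0 < a j) ∧ Near K t α a ∧ Fails m κ lam a}.Finite} ≤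
      ENNReal.ofReal ((n : ℝ) - 1 + (1 + (n + m) * κ + 2 * m * lam) / t) ∧
    (1 + (n + m) * κ + 2 * m * lam < t → ∀ᵐ α : Fin n → ℝ, ∀ K : ℝ,
        {a : Fin n → ℚ | (∀ j, 0 < a j) ∧ Near K t α a ∧ Fails m κ lam a}.Finite) ∧
    (∀ (a : Fin n → ℚ) (d : Fin m → ℚ) (b : Fin n → ℤ) (c : Fin m → ℤ),
      1 / (H a : ℝ) ^ 2 < |lin a d b c| → ∀ η : ℝ, 0 ≤ η →
        (maxBC b c : ℝ) / (size a d b c : ℝ) ^ (1 + η) < |lin a d b c|) := by
  have hv : (0 : ℝ) ≤ 1 + (n + m) * κ + 2 * m * lam := by positivity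
  obtain ⟨h1, h2⟩ := master hn _ _ hv (count (n := n) hn m κ lam hκ hlam) t ht
  have e : ∀ (K : ℝ) (α : Fin n → ℝ),
      {a : Fin n → ℚ | a ∈ {a : Fin n → ℚ | (∀ i, 0 < a i) ∧ Fails m κ lam a} ∧ Near K t α a} =
      {a : Fin n → ℚ | (∀ j, 0 < a j) ∧ Near K t α a ∧ Fails m κ lam a} := by
    intro K α
    ext a
    constructor
    · rintro ⟨⟨h1, h2⟩, h3⟩
      exact ⟨h1, h3, h2⟩
    · rintro ⟨h1, h2, h3⟩
      exact ⟨⟨h1, h3⟩, h2⟩
  simp only [e] at h1 h2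
  exact ⟨h1, h2, fun a d b c h η hη => lang_of a d b c h η hη⟩

end Pool.Agent.Results.MP_90c6bd_nt.TuplesOfConvergents
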